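import Mathlib

set_option autoImplicit false
set_option linter.unusedSectionVars false

namespace Pool.Agent.H.MP_78de02_pr

open MeasureTheory Finset Function
open scoped ENNReal

section slices
variable {ι X : Type} [Fintype ι] [DecidableEq ι] [MeasurableSpace X] (ν : Measure X)
  [IsProbabilityMeasure ν]

lemma marg (s : Finset ι) (T : Set (ι → X)) (hT : MeasurableSet T) :
    Measure.pi (fun _ : ι => ν) T = ∫⁻ x, Measure.pi (fun _ : s => ν)
      {y | updateFinset x s y ∈ T} ∂Measure.pi (fun _ : ι => ν) := by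
  have hf : Measurable (T.indicator (1 : (ι → X) → ℝ≥0∞)) := measurable_one.indicator hT
  have h := lintegral_eq_of_lmarginal_eq (μ := fun _ : ι => ν) s hf (hf.lmarginal (s := s) _) (by
    funext x
    have : ∀ y : s → X, (∫⋯∫⁻_s, T.indicator 1 ∂fun _ : ι => ν) (updateFinset x s y) =
        (∫⋯∫⁻_s, T.indicator 1 ∂fun _ : ι => ν) x := fun y =>
      lmarginal_congr _ _ fun i hi => by simp [updateFinset, hi]
    symm
    refine (lintegral_congr this).trans ?_
    simp only [lintegral_const, measure_univ, mul_one])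
  rw [lintegral_indicator_one hT] at h
  rw [h]
  refine lintegral_congr fun x => ?_
  have hm : MeasurableSet {y : s → X | updateFinset x s y ∈ T} :=
    hT.preimage measurable_updateFinset
  rw [lmarginal, ← lintegral_indicator_one hm]
  rfl

lemma marg1 (j : ι) (T : Set (ι → X)) (hT : MeasurableSet T) :
    Measure.pi (fun _ : ι => ν) T =
      ∫⁻ x, ν {y | update x j y ∈ T} ∂Measure.pi (fun _ : ι => ν) := by
  have hf : Measurable (T.indicator (1 : (ι → X) → ℝ≥0∞)) := measurable_one.indicator hT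
  have h := lintegral_eq_of_lmarginal_eq (μ := fun _ : ι => ν) {j} hf
    (hf.lmarginal (s := {j}) _) (by
    funext x
    have : ∀ y : ({j} : Finset ι) → X,
        (∫⋯∫⁻_{j}, T.indicator 1 ∂fun _ : ι => ν) (updateFinset x {j} y) =
        (∫⋯∫⁻_{j}, T.indicator 1 ∂fun _ : ι => ν) x := fun y =>
      lmarginal_congr _ _ fun i hi => by simp [updateFinset, hi]
    symm
    refine (lintegral_congr this).trans ?_
    simp only [lintegral_const, measure_univ, mul_one])
  rw [lintegral_indicator_one hT] at h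
  rw [h, lmarginal_singleton]
  refine lintegral_congr fun x => ?_
  have hm : MeasurableSet {y : X | update x j y ∈ T} := hT.preimage (measurable_update x)
  rw [← lintegral_indicator_one hm]
  rfl

lemma lint_two {Y : Type} [MeasurableSpace Y] (P : Measure Y) [IsProbabilityMeasure P]
    (A B : Set Y) (hA : MeasurableSet A) (hB : MeasurableSet B) (a b : ℝ) (ha : 0 ≤ a)
    (hb : 0 ≤ b) :
    ∫⁻ x, (A.indicator (fun _ => ENNReal.ofReal a) x + B.indicator (fun _ => ENNReal.ofReal b) x) ∂P
      = ENNReal.ofReal (a * P.real A + b * P.real B) := by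
  rw [lintegral_add_left (measurable_const.indicator hA), lintegral_indicator_const hA,
    lintegral_indicator_const hB, ENNReal.ofReal_add (by positivity) (by positivity),
    ENNReal.ofReal_mul ha, ENNReal.ofReal_mul hb, ofReal_measureReal, ofReal_measureReal]

lemma slice_le (j : ι) (T A B : Set (ι → X)) (hT : MeasurableSet T) (hA : MeasurableSet A)
    (hB : MeasurableSet B) (a b : ℝ) (ha : 0 ≤ a) (hb : 0 ≤ b)
    (h1 : ∀ x ∈ A, ν.real {y | update x j y ∈ T} ≤ a)
    (h2 : ∀ x ∈ B, ν.real {y | update x j y ∈ T} ≤ b)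
    (h3 : ∀ x y, update x j y ∈ T → x ∈ A ∨ x ∈ B) :
    (Measure.pi (fun _ : ι => ν)).real T ≤
      a * (Measure.pi (fun _ : ι => ν)).real A + b * (Measure.pi (fun _ : ι => ν)).real B := by
  rw [← ENNReal.ofReal_le_ofReal_iff (by positivity), ofReal_measureReal, marg1 ν j T hT,
    ← lint_two _ A B hA hB a b ha hb]
  refine lintegral_mono fun x => ?_
  by_cases xa : x ∈ A
  · refine le_trans ?_ le_self_add
    rw [Set.indicator_of_mem xa, ← ofReal_measureReal]
    exact ENNReal.ofReal_le_ofReal (h1 x xa)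
  by_cases xb : x ∈ B
  · refine le_trans ?_ le_add_self
    rw [Set.indicator_of_mem xb, ← ofReal_measureReal]
    exact ENNReal.ofReal_le_ofReal (h2 x xb)
  have : {y | update x j y ∈ T} = ∅ := by
    ext y; simpa using fun h => (h3 x y h).elim xa xb
  simp [this]

lemma slice_ge (j : ι) (T A : Set (ι → X)) (hT : MeasurableSet T) (hA : MeasurableSet A)
    (a : ℝ) (ha : 0 ≤ a) (h1 : ∀ x ∈ A, a ≤ ν.real {y | update x j y ∈ T}) :
    a * (Measure.pi (fun _ : ι => ν)).real A ≤ (Measure.pi (fun _ : ι => ν)).real T := by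
  rw [← ENNReal.ofReal_le_ofReal_iff (by positivity), ofReal_measureReal, marg1 ν j T hT,
    ENNReal.ofReal_mul ha, ofReal_measureReal, ← lintegral_indicator_const hA]
  refine lintegral_mono fun x => ?_
  by_cases xa : x ∈ A
  · rw [Set.indicator_of_mem xa, ← ofReal_measureReal (μ := ν)]
    exact ENNReal.ofReal_le_ofReal (h1 x xa)
  · simp [xa]

lemma slice_eq (s : Finset ι) (T A : Set (ι → X)) (hT : MeasurableSet T) (hA : MeasurableSet A)
    (c : ℝ≥0∞) (h1 : ∀ x ∈ A, Measure.pi (fun _ : s => ν) {y | updateFinset x s y ∈ T} = c)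
    (h3 : ∀ x y, updateFinset x s y ∈ T → x ∈ A) :
    Measure.pi (fun _ : ι => ν) T = c * Measure.pi (fun _ : ι => ν) A := by
  rw [marg ν s T hT, ← lintegral_indicator_const hA]
  refine lintegral_congr fun x => ?_
  by_cases xa : x ∈ A
  · rw [Set.indicator_of_mem xa, h1 x xa]
  · have : {y | updateFinset x s y ∈ T} = ∅ := by
      ext y; simpa using fun h => xa (h3 x y h)
    simp [this, xa]

end slices

/-- coordinate projection onto a support -/
def mask (A : Type) [Semiring A] {ι : Type} [DecidableEq ι] (s : Finset ι) :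
    (ι → A) →ₗ[A] (ι → A) where
  toFun x := fun i => if i ∈ s then x i else 0
  map_add' x y := by funext i; by_cases h : i ∈ s <;> simp [h]
  map_smul' c x := by funext i; by_cases h : i ∈ s <;> simp [h]

variable {p : ℕ} [Fact p.Prime]

/-- reduction modulo `p` -/
noncomputable def red {ι : Type} : (ι → ℤ_[p]) →+ (ι → ZMod p) where
  toFun x := fun i => PadicInt.toZMod (x i)
  map_zero' := by funext i; simp
  map_add' x y := by funext i; simp

lemma red_apply {ι : Type} (x : ι → ℤ_[p]) (i : ι) : red x i = PadicInt.toZMod (x i) := rfl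

lemma red_mask {ι : Type} [DecidableEq ι] (s : Finset ι) (x : ι → ℤ_[p]) :
    red (mask ℤ_[p] s x) = mask (ZMod p) s (red x) := by
  funext i; by_cases h : i ∈ s <;> simp [red_apply, mask, h]

lemma red_surj {ι : Type} : Surjective (red : (ι → ℤ_[p]) →+ (ι → ZMod p)) := by
  intro v
  refine ⟨fun i => ((v i).val : ℤ_[p]), funext fun i => ?_⟩
  simp [red_apply]

variable [MeasurableSpace ℤ_[p]] [BorelSpace ℤ_[p]]

lemma meas_toZMod : Measurable (PadicInt.toZMod : ℤ_[p] → ZMod p) := by
  refine measurable_to_countable' fun a => IsOpen.measurableSet ?_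
  have : (PadicInt.toZMod : ℤ_[p] → ZMod p) ⁻¹' {a} = Metric.ball (a.val : ℤ_[p]) 1 := by
    ext x
    simp only [Set.mem_preimage, Set.mem_singleton_iff, Metric.mem_ball, dist_eq_norm]
    rw [← PadicInt.mem_nonunits, ← IsLocalRing.mem_maximalIdeal, ← PadicInt.ker_toZMod,
      RingHom.mem_ker]
    simp [sub_eq_zero]
  rw [this]; exact Metric.isOpen_ball

lemma meas_red {ι : Type} : Measurable (red : (ι → ℤ_[p]) → (ι → ZMod p)) :=
  measurable_pi_lambda _ fun i => meas_toZMod.comp (measurable_pi_apply i)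

lemma meas_mod {ι κ : Type} [Fintype ι] [Fintype κ] (Q : (κ → ι → ZMod p) → Prop) :
    MeasurableSet {ω : κ → ι → ℤ_[p] | Q fun j => red (ω j)} := by
  have : Measurable fun ω : κ → ι → ℤ_[p] => fun j => red (ω j) :=
    measurable_pi_lambda _ fun j => meas_red.comp (measurable_pi_apply j)
  exact this (MeasurableSet.of_discrete (s := {v | Q v}))

variable (μ : Measure ℤ_[p]) [μ.IsAddHaarMeasure] [IsProbabilityMeasure μ]
variable {ι : Type} [Fintype ι] [DecidableEq ι]

lemma col_prob (s : Finset ι) (W : Submodule (ZMod p) (ι → ZMod p)) :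
    (Measure.pi (fun _ : ι => μ)).real {y | mask (ZMod p) s (red y) ∉ W} =
      1 - ((p : ℝ) ^ Module.finrank (ZMod p)
        (LinearMap.range (W.mkQ.comp (mask (ZMod p) s))))⁻¹ := by
  let ψ : (ι → ℤ_[p]) →+ ((ι → ZMod p) ⧸ W) :=
    (W.mkQ.comp (mask (ZMod p) s)).toAddMonoidHom.comp red
  have hk : (ψ.ker : Set (ι → ℤ_[p])) = {y | mask (ZMod p) s (red y) ∈ W} := by
    ext y; simp [ψ]
  have hm : MeasurableSet (ψ.ker : Set (ι → ℤ_[p])) := by
    rw [hk]; exact meas_red (MeasurableSet.of_discrete (s := {v | mask (ZMod p) s v ∈ W}))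
  have hi : ψ.ker.index = p ^ Module.finrank (ZMod p)
      (LinearMap.range (W.mkQ.comp (mask (ZMod p) s))) := by
    rw [AddSubgroup.index_ker]
    have : Nat.card ψ.range = Nat.card (LinearMap.range (W.mkQ.comp (mask (ZMod p) s))) := by
      refine Nat.card_congr (Equiv.subtypeEquivRight fun v => ?_)
      simp only [ψ, AddMonoidHom.mem_range, LinearMap.mem_range]
      exact ⟨fun ⟨x, hx⟩ => ⟨_, hx⟩, fun ⟨x, hx⟩ => by
        obtain ⟨y, rfl⟩ := red_surj x; exact ⟨y, hx⟩⟩
    rw [this, Module.natCard_eq_pow_finrank (K := ZMod p), Nat.card_zmod]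
  have hp : 0 < p := (Fact.out : p.Prime).pos
  have : ψ.ker.FiniteIndex := ⟨by rw [hi]; positivity⟩
  have h := AddSubgroup.index_mul_measure ψ.ker hm (Measure.pi (fun _ : ι => μ))
  rw [measure_univ, hi] at h
  have h2 := congrArg ENNReal.toReal h
  rw [ENNReal.toReal_mul, ENNReal.toReal_natCast, ENNReal.toReal_one, ← measureReal_def] at h2
  have e : {y : ι → ℤ_[p] | mask (ZMod p) s (red y) ∉ W} = (ψ.ker : Set (ι → ℤ_[p]))ᶜ := by
    rw [hk]; rfl
  rw [e, probReal_compl_eq_one_sub hm]
  congr 1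
  push_cast at h2
  exact eq_inv_of_mul_eq_one_right h2

/-- the columns in `S` are independent modulo `p` -/
def II (σ : ι → Finset ι) (S : Finset ι) : Set (ι → ι → ℤ_[p]) :=
  {ω | LinearIndepOn (ZMod p) (fun j => mask (ZMod p) (σ j) (red (ω j))) S}

/-- their span -/
def WW (σ : ι → Finset ι) (S : Finset ι) (ω : ι → ι → ℤ_[p]) : Submodule (ZMod p) (ι → ZMod p) :=
  Submodule.span (ZMod p) ((fun j => mask (ZMod p) (σ j) (red (ω j))) '' S)

/-- column `j` can reach everything modulo the span -/
def Gd (σ : ι → Finset ι) (S : Finset ι) (j : ι) : Set (ι → ι → ℤ_[p]) :=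
  {ω | WW σ S ω ⊔ LinearMap.range (mask (ZMod p) (σ j)) = ⊤}

lemma II_meas (σ : ι → Finset ι) (S : Finset ι) : MeasurableSet (II (p := p) σ S) :=
  meas_mod (fun v => LinearIndepOn (ZMod p) (fun j => mask (ZMod p) (σ j) (v j)) S)

lemma Gd_meas (σ : ι → Finset ι) (S : Finset ι) (j : ι) : MeasurableSet (Gd (p := p) σ S j) :=
  meas_mod (fun v => Submodule.span (ZMod p) ((fun j => mask (ZMod p) (σ j) (v j)) '' S) ⊔
    LinearMap.range (mask (ZMod p) (σ j)) = ⊤)

lemma II_congr (σ : ι → Finset ι) (S : Finset ι) {ω ω' : ι → ι → ℤ_[p]}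
    (h : ∀ j ∈ S, ω j = ω' j) : ω ∈ II σ S ↔ ω' ∈ II σ S := by
  unfold II
  simp only [Set.mem_ofPred_eq]
  exact linearIndepOn_congr fun j hj => by simp only [h j hj]

lemma WW_congr (σ : ι → Finset ι) (S : Finset ι) {ω ω' : ι → ι → ℤ_[p]}
    (h : ∀ j ∈ S, ω j = ω' j) : WW σ S ω = WW σ S ω' := by
  unfold WW
  rw [Set.image_congr fun j hj => by rw [h j hj]]

lemma II_insert (σ : ι → Finset ι) (S : Finset ι) (j : ι) (hj : j ∉ S) (x : ι → ι → ℤ_[p])
    (y : ι → ℤ_[p]) : update x j y ∈ II σ (insert j S) ↔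
      x ∈ II σ S ∧ mask (ZMod p) (σ j) (red y) ∉ WW σ S x := by
  have h : ∀ k ∈ S, update x j y k = x k := fun k hk =>
    update_of_ne (by rintro rfl; exact hj hk) _ _
  rw [← II_congr σ S h, ← WW_congr σ S h]
  unfold II WW
  simp only [Set.mem_ofPred_eq, Finset.coe_insert]
  rw [linearIndepOn_insert (by simpa using hj), update_self]

lemma WW_rank (σ : ι → Finset ι) (S : Finset ι) {x : ι → ι → ℤ_[p]} (hx : x ∈ II σ S) :
    Module.finrank (ZMod p) ((ι → ZMod p) ⧸ WW σ S x) = Fintype.card ι - S.card := by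
  have h1 := Submodule.finrank_quotient_add_finrank (WW σ S x)
  have h2 : Module.finrank (ZMod p) (WW σ S x) = S.card := by
    have hx' : LinearIndepOn (ZMod p) (fun j => mask (ZMod p) (σ j) (red (x j))) S := hx
    have := finrank_span_eq_card hx'
    have e : Fintype.card (S : Set ι) = S.card := by simp
    rw [← e, ← this]
    unfold WW
    rw [Set.image_eq_range]
  rw [h2, Module.finrank_fintype_fun_eq_card] at h1
  omega

lemma range_top_iff (s : Finset ι) (W : Submodule (ZMod p) (ι → ZMod p)) :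
    LinearMap.range (W.mkQ.comp (mask (ZMod p) s)) = ⊤ ↔
      W ⊔ LinearMap.range (mask (ZMod p) s) = ⊤ := by
  rw [LinearMap.range_comp, Submodule.map_mkQ_eq_top]

/-- the factors -/
noncomputable def aq (p d : ℕ) : ℝ := 1 - ((p : ℝ) ^ d)⁻¹

lemma aq_nonneg (d : ℕ) : 0 ≤ aq p d := by
  have hp : (1 : ℝ) ≤ p := by exact_mod_cast (Fact.out : p.Prime).one_lt.le
  have := inv_le_one_of_one_le₀ (one_le_pow₀ (n := d) hp)
  unfold aq; linarith

lemma aq_mono {d e : ℕ} (h : d ≤ e) : aq p d ≤ aq p e := by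
  have hp : (1 : ℝ) ≤ p := by exact_mod_cast (Fact.out : p.Prime).one_lt.le
  have := inv_anti₀ (by positivity) (pow_le_pow_right₀ hp h)
  unfold aq; linarith

lemma step_le (σ : ι → Finset ι) (S : Finset ι) (j : ι) (hj : j ∉ S) :
    (Measure.pi fun _ : ι => Measure.pi fun _ : ι => μ).real (II σ (insert j S)) ≤
      aq p (Fintype.card ι - S.card) *
        (Measure.pi fun _ : ι => Measure.pi fun _ : ι => μ).real (II σ S ∩ Gd σ S j) +
      aq p (Fintype.card ι - S.card - 1) *
        (Measure.pi fun _ : ι => Measure.pi fun _ : ι => μ).real (II σ S \ Gd σ S j) := by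
  refine slice_le _ j _ _ _ (II_meas _ _) ((II_meas _ _).inter (Gd_meas _ _ _))
    ((II_meas _ _).diff (Gd_meas _ _ _)) _ _ (aq_nonneg _) (aq_nonneg _) ?_ ?_ ?_
  · intro x hx
    simp only [II_insert σ S j hj, hx.1, true_and]
    rw [col_prob]
    refine aq_mono ?_
    rw [← WW_rank σ S hx.1]
    exact Submodule.finrank_le _
  · intro x hx
    simp only [II_insert σ S j hj, hx.1, true_and]
    rw [col_prob]
    refine aq_mono ?_
    rw [← WW_rank σ S hx.1]
    have := Submodule.finrank_lt (fun h => hx.2 ((range_top_iff _ _).1 h))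
    omega
  · intro x y h
    have := ((II_insert σ S j hj x y).1 h).1
    by_cases hg : x ∈ Gd σ S j
    · exact Or.inl ⟨this, hg⟩
    · exact Or.inr ⟨this, hg⟩

lemma step_ge (S : Finset ι) (j : ι) (hj : j ∉ S) :
    aq p (Fintype.card ι - S.card) *
      (Measure.pi fun _ : ι => Measure.pi fun _ : ι => μ).real (II (fun _ => univ) S) ≤
    (Measure.pi fun _ : ι => Measure.pi fun _ : ι => μ).real (II (fun _ => univ) (insert j S)) := by
  refine slice_ge _ j _ _ (II_meas _ _) (II_meas _ _) _ (aq_nonneg _) ?_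
  intro x hx
  simp only [II_insert _ S j hj, hx, true_and]
  have : LinearMap.range ((WW (fun _ => univ) S x).mkQ.comp (mask (ZMod p) univ)) = ⊤ := by
    rw [range_top_iff, eq_top_iff]
    intro v _
    exact Submodule.mem_sup_right ⟨v, by funext i; simp [mask]⟩
  rw [col_prob, this, finrank_top, WW_rank _ S hx]
  exact le_rfl

/-- finite products -/
noncomputable def AA (p m : ℕ) : ℝ := ∏ i ∈ range m, aq p (i + 1)

lemma AA_pos (m : ℕ) : 0 < AA p m := by
  have hp : (1 : ℝ) < p := by exact_mod_cast (Fact.out : p.Prime).one_lt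
  refine Finset.prod_pos fun i _ => ?_
  have := inv_lt_one_of_one_lt₀ (one_lt_pow₀ (n := i + 1) hp (by omega))
  unfold aq; linarith

/-- potential -/
noncomputable def ff (σ : ι → Finset ι) (S : Finset ι) : ℝ :=
  (Measure.pi fun _ : ι => Measure.pi fun _ : ι => μ).real (II σ S) *
    AA p (Fintype.card ι - S.card)

lemma card_lt {S : Finset ι} {j : ι} (hj : j ∉ S) : S.card < Fintype.card ι :=
  Finset.card_lt_univ_of_notMem hj

lemma ff_step (σ : ι → Finset ι) (S : Finset ι) (j : ι) (hj : j ∉ S) :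
    ff μ σ (insert j S) + AA p (Fintype.card ι - S.card - 1) *
      (aq p (Fintype.card ι - S.card) - aq p (Fintype.card ι - S.card - 1)) *
      (Measure.pi fun _ : ι => Measure.pi fun _ : ι => μ).real (II σ S \ Gd σ S j) ≤ ff μ σ S := by
  have h := step_le μ σ S j hj
  have hc := card_lt hj
  obtain ⟨d, hd⟩ : ∃ d, Fintype.card ι - S.card = d + 1 := ⟨Fintype.card ι - S.card - 1, by omega⟩
  have e : Fintype.card ι - (insert j S).card = d := by rw [Finset.card_insert_of_notMem hj]; omega
  have s := measureReal_inter_add_sdiff (μ := Measure.pi fun _ : ι => Measure.pi fun _ : ι => μ)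
    (s := II σ S) (Gd_meas (p := p) σ S j)
  unfold ff
  rw [e, hd, ← s]
  rw [hd] at h
  simp only [Nat.add_sub_cancel] at h ⊢
  have := mul_le_mul_of_nonneg_right h (AA_pos (p := p) d).le
  rw [show AA p (d + 1) = AA p d * aq p (d + 1) from Finset.prod_range_succ _ _]
  nlinarith

lemma ff_step' (σ : ι → Finset ι) (S : Finset ι) (j : ι) (hj : j ∉ S) :
    ff μ σ (insert j S) ≤ ff μ σ S := by
  have h := ff_step μ σ S j hj
  have : 0 ≤ AA p (Fintype.card ι - S.card - 1) *
      (aq p (Fintype.card ι - S.card) - aq p (Fintype.card ι - S.card - 1)) *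
      (Measure.pi fun _ : ι => Measure.pi fun _ : ι => μ).real (II σ S \ Gd σ S j) :=
    mul_nonneg (mul_nonneg (AA_pos _).le (sub_nonneg.2 (aq_mono (by omega)))) measureReal_nonneg
  linarith

lemma ff_anti (σ : ι → Finset ι) {S T : Finset ι} (h : S ⊆ T) : ff μ σ T ≤ ff μ σ S := by
  have : ∀ U : Finset ι, ff μ σ (S ∪ U) ≤ ff μ σ S := by
    intro U
    induction U using Finset.induction_on with
    | empty => simp
    | insert j U _ ih =>
      rw [Finset.union_insert]
      by_cases hj : j ∈ S ∪ U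
      · rwa [Finset.insert_eq_of_mem hj]
      · exact (ff_step' μ σ _ j hj).trans ih
  simpa [Finset.union_eq_right.2 h] using this T

lemma ff_empty (σ : ι → Finset ι) : ff μ σ ∅ = AA p (Fintype.card ι) := by
  have : II (p := p) σ ∅ = Set.univ := by
    ext; simp [II]
  simp [ff, this]

lemma ff_univ (σ : ι → Finset ι) : ff μ σ univ =
    (Measure.pi fun _ : ι => Measure.pi fun _ : ι => μ).real (II σ univ) := by
  simp [ff, AA]

lemma full_prob : (Measure.pi fun _ : ι => Measure.pi fun _ : ι => μ).real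
    (II (fun _ => univ) univ) = AA p (Fintype.card ι) := by
  rw [← ff_univ]
  have : ∀ S : Finset ι, ff μ (fun _ => univ) S = AA p (Fintype.card ι) := by
    intro S
    induction S using Finset.induction_on with
    | empty => exact ff_empty μ _
    | insert j S hj ih =>
      refine le_antisymm ((ff_step' μ _ S j hj).trans ih.le) (ih.symm.le.trans ?_)
      have h := step_ge μ S j hj
      have hc := card_lt hj
      obtain ⟨d, hd⟩ : ∃ d, Fintype.card ι - S.card = d + 1 :=
        ⟨Fintype.card ι - S.card - 1, by omega⟩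
      have e : Fintype.card ι - (insert j S).card = d := by
        rw [Finset.card_insert_of_notMem hj]; omega
      unfold ff
      rw [e, hd, show AA p (d + 1) = AA p d * aq p (d + 1) from Finset.prod_range_succ _ _]
      rw [hd] at h
      have := mul_le_mul_of_nonneg_right h (AA_pos (p := p) d).le
      nlinarith
  exact this _

end Pool.Agent.H.MP_78de02_pr
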