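import Pool.Agent.H.MP_78de02_pr.A

set_option autoImplicit false
set_option linter.unusedSectionVars false

namespace Pool.Agent.H.MP_78de02_pr

open MeasureTheory Finset Function
open scoped ENNReal

variable {p : ℕ} [Fact p.Prime] {ι : Type} [Fintype ι] [DecidableEq ι]

lemma red_smul (a : ℤ_[p]) (x : ι → ℤ_[p]) : red (a • x) = PadicInt.toZMod a • red x := by
  funext i; simp [red_apply]

lemma toZMod_surj (a : ZMod p) : ∃ b : ℤ_[p], PadicInt.toZMod b = a := ⟨a.val, by simp⟩

lemma nak (N : Submodule ℤ_[p] (ι → ℤ_[p])) (h : ∀ v, ∃ n ∈ N, red n = v) : N = ⊤ := by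
  rw [eq_top_iff]
  refine Submodule.le_of_le_smul_of_le_jacobson_bot (I := IsLocalRing.maximalIdeal ℤ_[p])
    Module.Finite.fg_top (IsLocalRing.maximalIdeal_le_jacobson _) ?_
  intro x _
  obtain ⟨n, hn, e⟩ := h (red x)
  have h1 : ∀ i, ∃ b, x i - n i = (p : ℤ_[p]) * b := by
    intro i
    have : x i - n i ∈ RingHom.ker (PadicInt.toZMod : ℤ_[p] →+* ZMod p) := by
      rw [RingHom.mem_ker, map_sub, sub_eq_zero]
      exact (congrFun e i).symm
    rw [PadicInt.ker_toZMod, PadicInt.maximalIdeal_eq_span_p, Ideal.mem_span_singleton] at this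
    exact this
  choose b hb using h1
  have e2 : x = n + (p : ℤ_[p]) • b := by
    funext i; simp [← hb i]
  rw [e2]
  refine Submodule.add_mem_sup hn (Submodule.smul_mem_smul ?_ Submodule.mem_top)
  rw [PadicInt.maximalIdeal_eq_span_p]
  exact Ideal.mem_span_singleton_self _

lemma lift_span (s : Set (ι → ℤ_[p])) {v : ι → ZMod p}
    (hv : v ∈ Submodule.span (ZMod p) (red '' s)) : ∃ n ∈ Submodule.span ℤ_[p] s, red n = v := by
  induction hv using Submodule.span_induction with
  | mem x hx => obtain ⟨y, hy, rfl⟩ := hx; exact ⟨y, Submodule.subset_span hy, rfl⟩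
  | zero => exact ⟨0, zero_mem _, map_zero _⟩
  | add x y _ _ hx hy =>
    obtain ⟨a, ha, rfl⟩ := hx
    obtain ⟨b, hb, rfl⟩ := hy
    exact ⟨a + b, add_mem ha hb, map_add _ _ _⟩
  | smul a x _ hx =>
    obtain ⟨n, hn, rfl⟩ := hx
    obtain ⟨b, rfl⟩ := toZMod_surj a
    exact ⟨b • n, Submodule.smul_mem _ _ hn, red_smul _ _⟩

lemma red_span (s : Set (ι → ℤ_[p])) {n : ι → ℤ_[p]} (hn : n ∈ Submodule.span ℤ_[p] s) :
    red n ∈ Submodule.span (ZMod p) (red '' s) := by
  induction hn using Submodule.span_induction with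
  | mem x hx => exact Submodule.subset_span ⟨x, hx, rfl⟩
  | zero => simp
  | add x y _ _ hx hy => rw [map_add]; exact add_mem hx hy
  | smul a x _ hx => rw [red_smul]; exact Submodule.smul_mem _ _ hx

lemma mask_univ (A : Type) [Semiring A] (x : ι → A) : mask A univ x = x := by
  funext i; simp [mask]

lemma span_top_iff (c : ι → ι → ℤ_[p]) : Submodule.span ℤ_[p] (Set.range c) = ⊤ ↔
    LinearIndependent (ZMod p) (fun j => red (c j)) := by
  have e : (red : (ι → ℤ_[p]) → _) '' Set.range c = Set.range fun j => red (c j) := by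
    rw [← Set.range_comp]; rfl
  constructor
  · intro h
    refine linearIndependent_of_top_le_span_of_card_eq_finrank ?_ (by simp)
    intro v _
    obtain ⟨y, rfl⟩ := red_surj v
    rw [← e]
    exact red_span _ (h ▸ Submodule.mem_top)
  · intro h
    refine nak _ fun v => lift_span _ ?_
    rw [e, h.span_eq_top_of_card_eq_finrank' (by simp)]
    exact Submodule.mem_top

variable [MeasurableSpace ℤ_[p]] [BorelSpace ℤ_[p]]

/-- the masked columns -/
noncomputable def cols (σ : ι → Finset ι) (ω : ι → ι → ℤ_[p]) : ι → ι → ℤ_[p] :=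
  fun j => mask ℤ_[p] (σ j) (ω j)

lemma II_cols (σ : ι → Finset ι) (S : Finset ι) (ω : ι → ι → ℤ_[p]) :
    ω ∈ II σ S ↔ cols σ ω ∈ II (fun _ => univ) S := by
  unfold II cols
  simp only [Set.mem_ofPred_eq, mask_univ, red_mask]

lemma II_univ (σ : ι → Finset ι) (ω : ι → ι → ℤ_[p]) :
    ω ∈ II σ univ ↔ Submodule.span ℤ_[p] (Set.range (cols σ ω)) = ⊤ := by
  rw [span_top_iff]
  unfold II cols
  simp only [Set.mem_ofPred_eq, red_mask, Finset.coe_univ, linearIndepOn_univ_iff]

lemma cols_univ (ω : ι → ι → ℤ_[p]) : cols (fun _ => univ) ω = ω := by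
  funext j; exact mask_univ _ _

lemma extend (S : Finset ι) {x : ι → ι → ℤ_[p]} (hx : x ∈ II (fun _ => univ) S) :
    ∃ x' ∈ II (fun _ => univ) univ, ∀ j ∈ S, x' j = x j := by
  have : ∀ U : Finset ι, ∃ x' ∈ II (fun _ => univ) (S ∪ U), ∀ j ∈ S, x' j = x j := by
    intro U
    induction U using Finset.induction_on with
    | empty => exact ⟨x, by simpa using hx, fun _ _ => rfl⟩
    | insert j U _ ih =>
      obtain ⟨z, hz, hz'⟩ := ih
      rw [Finset.union_insert]
      by_cases hj : j ∈ S ∪ U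
      · rw [Finset.insert_eq_of_mem hj]; exact ⟨z, hz, hz'⟩
      have hr := WW_rank _ _ hz
      have hc := card_lt hj
      have hne : WW (fun _ => univ) (S ∪ U) z ≠ ⊤ := by
        intro h
        rw [h, Module.finrank_zero_of_subsingleton] at hr
        omega
      obtain ⟨v, hv⟩ : ∃ v, v ∉ WW (fun _ => univ) (S ∪ U) z := by
        by_contra h
        push Not at h
        exact hne (eq_top_iff.2 fun v _ => h v)
      obtain ⟨y, rfl⟩ := red_surj v
      refine ⟨update z j y, (II_insert _ _ j hj z y).2 ⟨hz, by rwa [mask_univ]⟩, fun k hk => ?_⟩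
      rw [update_of_ne (by rintro rfl; exact hj (Finset.mem_union_left _ hk)), hz' k hk]
  have h := this univ
  rwa [Finset.union_eq_right.2 (Finset.subset_univ S)] at h

lemma exists_phi (T : Finset ι) {x : ι → ι → ℤ_[p]} (hx : x ∈ II (fun _ => univ) Tᶜ) :
    ∃ φ : (ι → ℤ_[p]) →ₗ[ℤ_[p]] (T → ℤ_[p]), Surjective φ ∧
      LinearMap.ker φ = Submodule.span ℤ_[p] (x '' (Tᶜ : Finset ι)) := by
  obtain ⟨z, hz, hz'⟩ := extend _ hx
  rw [II_univ, cols_univ, ← Fintype.range_linearCombination, LinearMap.range_eq_top] at hz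
  let e := LinearEquiv.ofBijective _ (OrzechProperty.bijective_of_surjective_endomorphism _ hz)
  refine ⟨(LinearMap.funLeft ℤ_[p] ℤ_[p] (Subtype.val : T → ι)).comp e.symm.toLinearMap,
    (LinearMap.funLeft_surjective_of_injective ℤ_[p] ℤ_[p] _ Subtype.val_injective).comp
      e.symm.surjective,
    le_antisymm ?_ ?_⟩
  · intro v hv
    obtain ⟨w, rfl⟩ := e.surjective v
    have hw : ∀ j ∈ T, w j = 0 := fun j hj => by
      have := congrFun (LinearMap.mem_ker.1 hv) ⟨j, hj⟩
      simpa [LinearMap.funLeft_apply] using this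
    have : e w = ∑ j, w j • z j := Fintype.linearCombination_apply _ _ _
    rw [this]
    refine Submodule.sum_mem _ fun j _ => ?_
    by_cases hj : j ∈ T
    · simp [hw j hj]
    · have hj' : j ∈ Tᶜ := by simpa using hj
      exact Submodule.smul_mem _ _ (Submodule.subset_span ⟨j, hj', (hz' j hj').symm⟩)
  · rw [Submodule.span_le]
    rintro _ ⟨j, hj, rfl⟩
    have hj' : j ∈ Tᶜ := hj
    have : e (Pi.single j 1) = x j := by
      rw [← hz' j hj']
      exact (Fintype.linearCombination_apply_single _ _ _ _).trans (one_smul _ _)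
    rw [← this, SetLike.mem_coe, LinearMap.mem_ker]
    funext k
    have : (k : ι) ≠ j := by rintro rfl; simp at hj'
    simp [LinearMap.funLeft_apply, this]

/-- the cokernel of the matrix with columns `c` is isomorphic to `G` -/
def Cok (G : Type) [AddCommGroup G] (c : ι → ι → ℤ_[p]) : Prop :=
  Nonempty (((ι → ℤ_[p]) ⧸ Submodule.span ℤ_[p] (Set.range c)) ≃+ G)

lemma cok_red (G : Type) [AddCommGroup G] (T : Finset ι) (c : ι → ι → ℤ_[p])
    (φ : (ι → ℤ_[p]) →ₗ[ℤ_[p]] (T → ℤ_[p])) (hs : Surjective φ)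
    (hk : LinearMap.ker φ = Submodule.span ℤ_[p] (c '' (Tᶜ : Finset ι))) :
    Cok G c ↔ Cok G fun j : T => φ (c j) := by
  have h1 : Submodule.span ℤ_[p] (Set.range fun j : T => φ (c j)) =
      (Submodule.span ℤ_[p] (Set.range c)).map φ := by
    refine le_antisymm (Submodule.span_le.2 ?_) ?_
    · rintro _ ⟨j, rfl⟩
      exact ⟨c j, Submodule.subset_span ⟨j, rfl⟩, rfl⟩
    · rw [Submodule.map_span, Submodule.span_le]
      rintro _ ⟨_, ⟨j, rfl⟩, rfl⟩
      by_cases hj : j ∈ T
      · exact Submodule.subset_span ⟨⟨j, hj⟩, rfl⟩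
      · have : c j ∈ LinearMap.ker φ := by
          rw [hk]; exact Submodule.subset_span ⟨j, by simpa using hj, rfl⟩
        rw [LinearMap.mem_ker.1 this]
        exact zero_mem _
  let ψ := (Submodule.span ℤ_[p] (Set.range fun j : T => φ (c j))).mkQ.comp φ
  have h2 : Surjective ψ := (Submodule.mkQ_surjective _).comp hs
  have h3 : Submodule.span ℤ_[p] (Set.range c) = LinearMap.ker ψ := by
    rw [LinearMap.ker_comp, Submodule.ker_mkQ, h1, Submodule.comap_map_eq, hk, eq_comm,
      sup_eq_left]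
    exact Submodule.span_mono (Set.image_subset_range _ _)
  let e := ((Submodule.quotEquivOfEq _ _ h3).trans (ψ.quotKerEquivOfSurjective h2)).toAddEquiv
  exact ⟨fun ⟨f⟩ => ⟨e.symm.trans f⟩, fun ⟨f⟩ => ⟨e.trans f⟩⟩

lemma phi_mask (σ : ι → Finset ι) (T : Finset ι) (j : ι) {x : ι → ι → ℤ_[p]}
    (hx : x ∈ Gd σ Tᶜ j) (φ : (ι → ℤ_[p]) →ₗ[ℤ_[p]] (T → ℤ_[p])) (hs : Surjective φ)
    (hk : LinearMap.ker φ = Submodule.span ℤ_[p] (cols σ x '' (Tᶜ : Finset ι))) :
    Surjective (φ.comp (mask ℤ_[p] (σ j))) := by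
  have : LinearMap.ker φ ⊔ LinearMap.range (mask ℤ_[p] (σ j)) = ⊤ := by
    refine nak _ fun v => ?_
    have hv : v ∈ WW σ Tᶜ x ⊔ LinearMap.range (mask (ZMod p) (σ j)) :=
      (show _ = ⊤ from hx) ▸ Submodule.mem_top
    obtain ⟨a, ha, _, ⟨b, rfl⟩, rfl⟩ := Submodule.mem_sup.1 hv
    obtain ⟨b, rfl⟩ := red_surj b
    have ha' : a ∈ Submodule.span (ZMod p) (red '' (cols σ x '' (Tᶜ : Finset ι))) := by
      rw [Set.image_image]
      simpa only [WW, cols, red_mask] using ha
    obtain ⟨n, hn, rfl⟩ := lift_span _ ha'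
    exact ⟨n + mask ℤ_[p] (σ j) b, Submodule.add_mem_sup (hk ▸ hn) ⟨b, rfl⟩, by
      rw [map_add, red_mask]⟩
  intro w
  obtain ⟨v, rfl⟩ := hs w
  obtain ⟨a, ha, _, ⟨b, rfl⟩, rfl⟩ := Submodule.mem_sup.1 (this ▸ Submodule.mem_top (x := v))
  exact ⟨b, by simp [LinearMap.mem_ker.1 ha]⟩

lemma haar_map {G H : Type} [AddGroup G] [AddGroup H] [TopologicalSpace G] [TopologicalSpace H]
    [IsTopologicalAddGroup G] [IsTopologicalAddGroup H] [MeasurableSpace G] [MeasurableSpace H]
    [BorelSpace G] [BorelSpace H] [CompactSpace H] (P : Measure G) (Q : Measure H)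
    [IsProbabilityMeasure P] [IsProbabilityMeasure Q] [P.IsAddLeftInvariant] [Q.IsAddHaarMeasure]
    (f : G →+ H) (hf : Continuous f) (hs : Surjective f) : P.map f = Q := by
  have : (P.map f).IsAddLeftInvariant := isAddLeftInvariant_map (f : G →ₙ+ H) hf.measurable hs
  have : IsProbabilityMeasure (P.map f) := Measure.isProbabilityMeasure_map hf.aemeasurable
  have h := Measure.isAddInvariant_eq_smul_of_compactSpace (P.map f) Q
  have h1 := congrArg (fun m : Measure H => m Set.univ) h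
  simp only [measure_univ, Measure.smul_apply] at h1
  have h2 : Measure.addHaarScalarFactor (P.map f) Q = 1 := by
    rw [ENNReal.smul_def, smul_eq_mul, mul_one] at h1
    exact_mod_cast h1.symm
  rw [h, h2, one_smul]

lemma span_closed (N : Submodule ℤ_[p] (ι → ℤ_[p])) :
    IsClosed {c : ι → ι → ℤ_[p] | Submodule.span ℤ_[p] (Set.range c) = N} := by
  have hN : IsClosed (N : Set (ι → ℤ_[p])) :=
    (Submodule.isCompact_of_fg (IsNoetherian.noetherian N)).isClosed
  have : {c : ι → ι → ℤ_[p] | Submodule.span ℤ_[p] (Set.range c) = N} =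
      (⋂ j, (fun c => c j) ⁻¹' N) ∩ ⋂ v ∈ N, Prod.fst ''
        {z : (ι → ι → ℤ_[p]) × (ι → ℤ_[p]) | ∑ j, z.2 j • z.1 j = v} := by
    ext c
    simp only [Set.mem_ofPred_eq, Set.mem_inter_iff, Set.mem_iInter, Set.mem_preimage,
      SetLike.mem_coe, Set.mem_image, Prod.exists, exists_and_right, exists_eq_right]
    constructor
    · rintro rfl
      exact ⟨fun j => Submodule.subset_span ⟨j, rfl⟩, fun v hv =>
        (Submodule.mem_span_range_iff_exists_fun _).1 hv⟩
    · rintro ⟨h1, h2⟩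
      refine le_antisymm (Submodule.span_le.2 ?_) fun v hv =>
        (Submodule.mem_span_range_iff_exists_fun _).2 (h2 v hv)
      rintro _ ⟨j, rfl⟩; exact h1 j
  rw [this]
  refine (isClosed_iInter fun j => hN.preimage (continuous_apply j)).inter
    (isClosed_biInter fun v _ => ?_)
  exact ((isClosed_eq (by fun_prop) continuous_const).isCompact.image continuous_fst).isClosed

end Pool.Agent.H.MP_78de02_pr
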