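import Pool.Agent.H.MP_78de02_pr.B

set_option autoImplicit false
set_option linter.unusedSectionVars false

namespace Pool.Agent.H.MP_78de02_pr

open MeasureTheory Finset Function
open scoped ENNReal

variable {p : ℕ} [Fact p.Prime] {ι : Type} [Fintype ι] [DecidableEq ι]
variable [MeasurableSpace ℤ_[p]] [BorelSpace ℤ_[p]]
variable (μ : Measure ℤ_[p]) [μ.IsAddHaarMeasure] [IsProbabilityMeasure μ]

lemma sub_prob (N : Submodule ℤ_[p] (ι → ℤ_[p])) [Finite ((ι → ℤ_[p]) ⧸ N)] :
    (Measure.pi (fun _ : ι => μ)).real N = (Nat.card ((ι → ℤ_[p]) ⧸ N) : ℝ)⁻¹ := by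
  have hN : IsClosed (N : Set (ι → ℤ_[p])) :=
    (Submodule.isCompact_of_fg (IsNoetherian.noetherian N)).isClosed
  have hi : N.toAddSubgroup.index = Nat.card ((ι → ℤ_[p]) ⧸ N) := rfl
  have : N.toAddSubgroup.FiniteIndex := ⟨by rw [hi]; exact Nat.card_pos.ne'⟩
  have h := AddSubgroup.index_mul_measure N.toAddSubgroup hN.measurableSet
    (Measure.pi (fun _ : ι => μ))
  rw [measure_univ, hi] at h
  have h2 := congrArg ENNReal.toReal h
  rw [ENNReal.toReal_mul, ENNReal.toReal_natCast, ENNReal.toReal_one, ← measureReal_def] at h2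
  exact eq_inv_of_mul_eq_one_right h2

lemma range_prob (N : Submodule ℤ_[p] (ι → ℤ_[p])) [Finite ((ι → ℤ_[p]) ⧸ N)] :
    (Measure.pi fun _ : ι => Measure.pi fun _ : ι => μ).real
      {c | Submodule.span ℤ_[p] (Set.range c) = N} =
      (Nat.card ((ι → ℤ_[p]) ⧸ N) : ℝ)⁻¹ ^ Fintype.card ι * AA p (Fintype.card ι) := by
  have ht : Module.IsTorsion ℤ_[p] ((ι → ℤ_[p]) ⧸ N) := by
    intro x
    refine ⟨⟨(Nat.card ((ι → ℤ_[p]) ⧸ N) : ℤ_[p]), mem_nonZeroDivisors_of_ne_zero
      (Nat.cast_ne_zero.2 Nat.card_pos.ne')⟩, ?_⟩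
    rw [Submonoid.mk_smul, Nat.cast_smul_eq_nsmul]
    exact card_nsmul_eq_zero'
  have hr : Module.finrank ℤ_[p] (ι → ℤ_[p]) = Module.finrank ℤ_[p] N := by
    have := Submodule.finrank_quotient_add_finrank N
    rw [Module.finrank_eq_zero_iff_isTorsion.2 ht] at this
    omega
  let B : (ι → ℤ_[p]) →ₗ[ℤ_[p]] (ι → ℤ_[p]) :=
    N.subtype.comp (LinearEquiv.ofFinrankEq _ _ hr).toLinearMap
  have Binj : Injective B := N.injective_subtype.comp (LinearEquiv.injective _)
  have Br : LinearMap.range B = N := by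
    rw [LinearMap.range_comp, LinearEquiv.range, Submodule.map_top, Submodule.range_subtype]
  let Φ : (ι → ι → ℤ_[p]) →+ (ι → ι → ℤ_[p]) := B.toAddMonoidHom.compLeft ι
  have Φc : Continuous Φ := continuous_pi fun j =>
    (LinearMap.continuous_on_pi B).comp (continuous_apply j)
  have Φi : Injective Φ := Binj.comp_left
  have Φm : MeasurableEmbedding Φ := (Φc.isClosedEmbedding Φi).measurableEmbedding
  have : (Measure.pi fun _ : ι => Measure.pi fun _ : ι => μ).IsAddHaarMeasure :=
    Measure.pi.isAddHaarMeasure _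
  set P := Measure.pi fun _ : ι => Measure.pi fun _ : ι => μ with hP
  have : (P.comap Φ).IsAddLeftInvariant := Measure.IsAddLeftInvariant.comap P Φm
  have : IsFiniteMeasure (P.comap Φ) := ⟨by rw [Φm.comap_apply]; exact measure_lt_top _ _⟩
  have h := Measure.isAddInvariant_eq_smul_of_compactSpace (P.comap Φ) P
  have key : ∀ A, P.real (Φ '' A) = Measure.addHaarScalarFactor (P.comap Φ) P * P.real A := by
    intro A
    rw [measureReal_def, ← Φm.comap_apply]
    conv_lhs => rw [h]
    rw [← measureReal_def, measureReal_nnreal_smul_apply]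
  have sp : ∀ c, Submodule.span ℤ_[p] (Set.range (Φ c)) =
      (Submodule.span ℤ_[p] (Set.range c)).map B := fun c => by
    rw [Submodule.map_span, ← Set.range_comp]; rfl
  have e1 : Φ '' Set.univ = Set.univ.pi fun _ => (N : Set (ι → ℤ_[p])) := by
    ext c
    simp only [Set.image_univ, Set.mem_range, Set.mem_pi, Set.mem_univ, forall_const,
      SetLike.mem_coe]
    constructor
    · rintro ⟨d, rfl⟩ j
      rw [← Br]; exact ⟨d j, rfl⟩
    · intro hc
      rw [← Br] at hc
      choose d hd using hc
      exact ⟨d, funext hd⟩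
  have e2 : {c | Submodule.span ℤ_[p] (Set.range c) = N} = Φ '' II (fun _ => univ) univ := by
    ext c
    simp only [Set.mem_ofPred_eq, Set.mem_image, II_univ, cols_univ]
    constructor
    · intro hc
      obtain ⟨d, -, rfl⟩ : c ∈ Φ '' Set.univ := by
        rw [e1]; intro j _; rw [← hc]; exact Submodule.subset_span ⟨j, rfl⟩
      refine ⟨d, Submodule.map_injective_of_injective Binj ?_, rfl⟩
      rw [← sp, hc, Submodule.map_top, Br]
    · rintro ⟨d, hd, rfl⟩
      rw [sp, hd, Submodule.map_top, Br]
  have k1 := key Set.univ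
  rw [e1, probReal_univ, mul_one, measureReal_def, Measure.pi_pi, Finset.prod_const,
    ENNReal.toReal_pow, ← measureReal_def, sub_prob, Finset.card_univ] at k1
  rw [e2, key, ← k1, full_prob]

section grp
variable {G : Type} [AddCommGroup G] [Module ℤ_[p] G] {e : ℕ} (hG : ∀ g : G, p ^ e • g = 0)
include hG

lemma lin {A : Type} [AddCommGroup A] [Module ℤ_[p] A] (f : A →+ G) (a : ℤ_[p]) (x : A) :
    f (a • x) = a • f x := by
  obtain ⟨b, hb⟩ := Ideal.mem_span_singleton.1 (PadicInt.appr_spec e a)
  have e1 : a = (a.appr e : ℤ_[p]) + ((p ^ e : ℕ) : ℤ_[p]) * b := by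
    push_cast; rw [← hb]; ring
  generalize a.appr e = n at e1
  subst e1
  simp only [add_smul, mul_smul, Nat.cast_smul_eq_nsmul, map_add, map_nsmul, hG]

lemma lc_comp (f : G →+ G) (g : ι → G) (x : ι → ℤ_[p]) :
    Fintype.linearCombination ℤ_[p] (fun i => f (g i)) x =
      f (Fintype.linearCombination ℤ_[p] g x) := by
  simp only [Fintype.linearCombination_apply, map_sum, lin hG]

lemma cok_iff (c : ι → ι → ℤ_[p]) : Cok G c ↔ ∃ g : ι → G,
    Surjective (Fintype.linearCombination ℤ_[p] g) ∧
      Submodule.span ℤ_[p] (Set.range c) = LinearMap.ker (Fintype.linearCombination ℤ_[p] g) := by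
  constructor
  · rintro ⟨f⟩
    let F : (ι → ℤ_[p]) →+ G :=
      f.toAddMonoidHom.comp (Submodule.span ℤ_[p] (Set.range c)).mkQ.toAddMonoidHom
    have hF : ∀ x, Fintype.linearCombination ℤ_[p] (fun i => F (Pi.single i 1)) x = F x := by
      intro x
      rw [Fintype.linearCombination_apply]
      conv_rhs => rw [pi_eq_sum_univ' x, map_sum]
      simp only [lin hG]
    refine ⟨fun i => F (Pi.single i 1), fun y => ?_, ?_⟩
    · obtain ⟨z, rfl⟩ := f.surjective y
      obtain ⟨x, rfl⟩ := Submodule.mkQ_surjective _ z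
      exact ⟨x, hF x⟩
    · ext x
      rw [LinearMap.mem_ker, hF]
      simp [F]
  · rintro ⟨g, hg, h⟩
    exact ⟨((Submodule.quotEquivOfEq _ _ h).trans
      (LinearMap.quotKerEquivOfSurjective _ hg)).toAddEquiv⟩

lemma cok_closed [Finite G] : IsClosed {c : ι → ι → ℤ_[p] | Cok G c} := by
  have : {c : ι → ι → ℤ_[p] | Cok G c} =
      ⋃ g ∈ {g : ι → G | Surjective (Fintype.linearCombination ℤ_[p] g)},
        {c | Submodule.span ℤ_[p] (Set.range c) =
          LinearMap.ker (Fintype.linearCombination ℤ_[p] g)} := by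
    ext c; simp [cok_iff hG]
  rw [this]
  exact (Set.toFinite _).isClosed_biUnion fun g _ => span_closed _

open Classical in
lemma fibre [Fintype G] (g : ι → G) (hg : Surjective (Fintype.linearCombination ℤ_[p] g)) :
    ((univ.filter fun g' : ι → G => Surjective (Fintype.linearCombination ℤ_[p] g')).filter
      fun g' => LinearMap.ker (Fintype.linearCombination ℤ_[p] g') =
        LinearMap.ker (Fintype.linearCombination ℤ_[p] g)).card = Nat.card (AddAut G) := by
  rw [← Nat.card_eq_finsetCard, eq_comm]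
  refine Nat.card_eq_of_bijective (fun α => ⟨fun i => α (g i), ?_⟩) ⟨?_, ?_⟩
  · simp only [Finset.mem_filter, Finset.mem_univ, true_and]
    constructor
    · intro y
      obtain ⟨x, hx⟩ := hg (α.symm y)
      exact ⟨x, (lc_comp hG α.toAddMonoidHom g x).trans (by rw [hx]; simp)⟩
    · ext x
      rw [LinearMap.mem_ker, LinearMap.mem_ker]
      exact (lc_comp hG α.toAddMonoidHom g x).symm ▸ by simp
  · intro α β h
    have h' : (fun i => α (g i)) = fun i => β (g i) := congrArg Subtype.val h
    refine AddEquiv.ext fun y => ?_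
    obtain ⟨x, rfl⟩ := hg y
    exact (lc_comp hG α.toAddMonoidHom g x).symm.trans
      ((congrArg (fun u => Fintype.linearCombination ℤ_[p] u x) h').trans
        (lc_comp hG β.toAddMonoidHom g x))
  · rintro ⟨g', hg'⟩
    simp only [Finset.mem_filter, Finset.mem_univ, true_and] at hg'
    refine ⟨(((LinearMap.quotKerEquivOfSurjective _ hg).symm.trans
      (Submodule.quotEquivOfEq _ _ hg'.2.symm)).trans
      (LinearMap.quotKerEquivOfSurjective _ hg'.1)).toAddEquiv, Subtype.ext (funext fun i => ?_)⟩
    have e1 : g i = Fintype.linearCombination ℤ_[p] g (Pi.single i 1) := by simp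
    have e2 : g' i = Fintype.linearCombination ℤ_[p] g' (Pi.single i 1) := by simp
    change LinearMap.quotKerEquivOfSurjective _ hg'.1 (Submodule.quotEquivOfEq _ _ hg'.2.symm
      ((LinearMap.quotKerEquivOfSurjective _ hg).symm (g i))) = g' i
    rw [e1, e2, LinearMap.quotKerEquivOfSurjective_symm_apply]
    rfl

open Classical in
lemma sur_count [Fintype G] : (Fintype.card G : ℝ) ^ Fintype.card ι * (1 -
    Nat.card (AddSubgroup G) * (1 / 2) ^ Fintype.card ι) ≤
    (univ.filter fun g : ι → G => Surjective (Fintype.linearCombination ℤ_[p] g)).card := by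
  have : Fintype (AddSubgroup G) := Fintype.ofFinite _
  have h1 := Finset.card_filter_add_card_filter_not (s := (univ : Finset (ι → G)))
    (fun g : ι → G => Surjective (Fintype.linearCombination ℤ_[p] g))
  have h2 : (univ.filter fun g : ι → G => ¬ Surjective (Fintype.linearCombination ℤ_[p] g)) ⊆
      (univ.filter fun H : AddSubgroup G => H ≠ ⊤).biUnion
        fun H => Fintype.piFinset fun _ : ι => univ.filter fun y => y ∈ H := by
    intro g hg
    simp only [Finset.mem_filter, Finset.mem_univ, true_and, Finset.mem_biUnion,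
      Fintype.mem_piFinset] at hg ⊢
    refine ⟨(LinearMap.range (Fintype.linearCombination ℤ_[p] g)).toAddSubgroup, fun h => hg ?_,
      fun i => ⟨Pi.single i 1, by simp⟩⟩
    intro y
    have : y ∈ (LinearMap.range (Fintype.linearCombination ℤ_[p] g)).toAddSubgroup :=
      h ▸ AddSubgroup.mem_top y
    exact this
  have h3 : ((univ.filter fun g : ι → G =>
      ¬ Surjective (Fintype.linearCombination ℤ_[p] g)).card : ℝ) ≤
      Nat.card (AddSubgroup G) * ((Fintype.card G : ℝ) / 2) ^ Fintype.card ι := by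
    have := (Finset.card_le_card h2).trans Finset.card_biUnion_le
    refine (Nat.cast_le.2 this).trans ?_
    push_cast
    refine (Finset.sum_le_card_nsmul _ _ (((Fintype.card G : ℝ) / 2) ^ Fintype.card ι)
      fun H hH => ?_).trans ?_
    · rw [Fintype.card_piFinset, Finset.prod_const, Finset.card_univ]
      push_cast
      gcongr
      have a1 := H.card_mul_index
      have a2 : H.index ≠ 1 := by simpa using hH
      have a3 : H.index ≠ 0 := AddSubgroup.index_ne_zero_of_finite
      have a4 : (univ.filter fun y => y ∈ H).card = Nat.card H := by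
        rw [Nat.card_eq_fintype_card, Fintype.card_subtype]
      rw [a4, ← Nat.card_eq_fintype_card, ← a1, le_div_iff₀ (by norm_num)]
      have : 2 ≤ H.index := by omega
      exact_mod_cast Nat.mul_le_mul_left _ this
    · rw [nsmul_eq_mul]
      gcongr
      rw [Nat.card_eq_fintype_card]
      exact Finset.card_le_univ _
  rw [Finset.card_univ, Fintype.card_fun] at h1
  have h4 := congrArg (Nat.cast : ℕ → ℝ) h1
  push_cast at h4
  rw [div_pow] at h3
  rw [one_div, inv_pow, mul_sub, mul_one, mul_left_comm, ← div_eq_mul_inv]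
  linarith

lemma fw [Finite G] :
    |Nat.card (AddAut G) * (Measure.pi fun _ : ι => Measure.pi fun _ : ι => μ).real {c | Cok G c}
      - AA p (Fintype.card ι)| ≤ Nat.card (AddSubgroup G) * (1 / 2) ^ Fintype.card ι := by
  classical
  have : Fintype G := Fintype.ofFinite _
  set Su := univ.filter fun g : ι → G => Surjective (Fintype.linearCombination ℤ_[p] g) with hSu
  let kk := fun g : ι → G => LinearMap.ker (Fintype.linearCombination ℤ_[p] g)
  have e1 : {c : ι → ι → ℤ_[p] | Cok G c} =
      ⋃ N ∈ Su.image kk, {c | Submodule.span ℤ_[p] (Set.range c) = N} := by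
    ext c; simp [cok_iff hG, hSu, kk]
  have e2 : Su.card = (Su.image kk).card * Nat.card (AddAut G) := by
    rw [Finset.card_eq_sum_card_image kk Su, Finset.sum_const_nat]
    intro N hN
    obtain ⟨g, hg, rfl⟩ := Finset.mem_image.1 hN
    rw [← fibre hG g (by simpa [hSu] using hg)]
  have e3 : (Measure.pi fun _ : ι => Measure.pi fun _ : ι => μ).real {c | Cok G c} =
      (Su.image kk).card * (((Fintype.card G : ℝ))⁻¹ ^ Fintype.card ι * AA p (Fintype.card ι)) := by
    rw [e1, measureReal_biUnion_finset, ← nsmul_eq_mul, ← Finset.sum_const]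
    · refine Finset.sum_congr rfl fun N hN => ?_
      obtain ⟨g, hg, rfl⟩ := Finset.mem_image.1 hN
      let f := LinearMap.quotKerEquivOfSurjective _ (Finset.mem_filter.1 hg).2
      have : Finite ((ι → ℤ_[p]) ⧸ kk g) := Finite.of_equiv _ f.toEquiv.symm
      rw [range_prob, Nat.card_congr f.toEquiv, Nat.card_eq_fintype_card]
    · intro N _ N' _ h
      exact Set.disjoint_left.2 fun c h1 h2 => h (h1.symm.trans h2)
    · exact fun N _ => (span_closed N).measurableSet
  have h1 := sur_count (ι := ι) hG
  have h2 : (Su.card : ℝ) ≤ (Fintype.card G : ℝ) ^ Fintype.card ι := by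
    have := Finset.card_le_univ Su
    rw [Fintype.card_fun] at this
    exact_mod_cast this
  have h0 : (0 : ℝ) < (Fintype.card G : ℝ) ^ Fintype.card ι := by
    have : 0 < Fintype.card G := Fintype.card_pos
    positivity
  have hA := AA_pos (p := p) (Fintype.card ι)
  have hA1 : AA p (Fintype.card ι) ≤ 1 := Finset.prod_le_one (fun i _ => aq_nonneg _)
    fun i _ => sub_le_self _ (by positivity)
  have e4 : Nat.card (AddAut G) * ((Su.image kk).card * (((Fintype.card G : ℝ))⁻¹ ^ Fintype.card ι
      * AA p (Fintype.card ι))) - AA p (Fintype.card ι) =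
      (Su.card / (Fintype.card G : ℝ) ^ Fintype.card ι - 1) * AA p (Fintype.card ι) := by
    rw [e2]; push_cast; rw [inv_pow]; field_simp
  have h3 : (Su.card : ℝ) / (Fintype.card G : ℝ) ^ Fintype.card ι ≤ 1 := (div_le_one h0).2 h2
  have h4 : 1 - Nat.card (AddSubgroup G) * (1 / 2) ^ Fintype.card ι ≤
      (Su.card : ℝ) / (Fintype.card G : ℝ) ^ Fintype.card ι := by
    rw [le_div_iff₀ h0, mul_comm]
    exact h1.trans (by rw [hSu])
  rw [e3, e4, abs_mul, abs_of_pos hA, abs_of_nonpos (by linarith)]
  exact (mul_le_of_le_one_right (by linarith) hA1).trans (by linarith)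

end grp

end Pool.Agent.H.MP_78de02_pr
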