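import Pool.Agent.H.MP_78de02_pr.C

set_option autoImplicit false
set_option linter.unusedSectionVars false

namespace Pool.Agent.H.MP_78de02_pr

open MeasureTheory Finset Function Filter Topology
open scoped ENNReal

variable {p : ℕ} [Fact p.Prime] {ι : Type} [Fintype ι] [DecidableEq ι]
variable [MeasurableSpace ℤ_[p]] [BorelSpace ℤ_[p]]
variable (μ : Measure ℤ_[p]) [μ.IsAddHaarMeasure] [IsProbabilityMeasure μ]

/-- the good event -/
def Good (σ : ι → Finset ι) (T : Finset ι) : Set (ι → ι → ℤ_[p]) :=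
  II σ Tᶜ ∩ ⋂ j ∈ T, Gd σ Tᶜ j

lemma Good_meas (σ : ι → Finset ι) (T : Finset ι) : MeasurableSet (Good (p := p) σ T) :=
  (II_meas _ _).inter (T.measurableSet_biInter fun _ _ => Gd_meas _ _ _)

lemma Good_upd (σ : ι → Finset ι) (T : Finset ι) (x : ι → ι → ℤ_[p]) (y : T → ι → ℤ_[p]) :
    updateFinset x T y ∈ Good σ T ↔ x ∈ Good σ T := by
  have h : ∀ j ∈ Tᶜ, updateFinset x T y j = x j := fun j hj => by
    simp [updateFinset, Finset.mem_compl.1 hj]
  unfold Good Gd
  simp only [Set.mem_inter_iff, Set.mem_iInter, Set.mem_ofPred_eq, II_congr σ _ h,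
    WW_congr σ _ h]

lemma cols_cont (σ : ι → Finset ι) : Continuous (cols (p := p) σ) :=
  continuous_pi fun j => (LinearMap.continuous_on_pi _).comp (continuous_apply j)

section grp
variable {G : Type} [AddCommGroup G] [Module ℤ_[p] G] {e : ℕ} (hG : ∀ g : G, p ^ e • g = 0)
  [Finite G]
include hG

lemma good_slice (σ : ι → Finset ι) (T : Finset ι) :
    (Measure.pi fun _ : ι => Measure.pi fun _ : ι => μ) ({ω | Cok G (cols σ ω)} ∩ Good σ T) =
      (Measure.pi fun _ : T => Measure.pi fun _ : T => μ) {c | Cok G c} *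
      (Measure.pi fun _ : ι => Measure.pi fun _ : ι => μ) (Good σ T) := by
  refine slice_eq _ T _ _ (((cok_closed hG).preimage (cols_cont σ)).measurableSet.inter
    (Good_meas _ _)) (Good_meas _ _) _ (fun x hx => ?_) fun x y h => (Good_upd _ _ _ _).1 h.2
  obtain ⟨φ, hs, hk⟩ := exists_phi T ((II_cols _ _ _).1 hx.1)
  let Ψ : (T → ι → ℤ_[p]) →+ (T → T → ℤ_[p]) :=
    { toFun := fun y j => φ (mask ℤ_[p] (σ j) (y j))
      map_zero' := by funext j; simp
      map_add' := fun y z => by funext j; simp }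
  have Ψc : Continuous Ψ := continuous_pi fun j =>
    (LinearMap.continuous_on_pi (φ.comp (mask ℤ_[p] (σ j)))).comp (continuous_apply j)
  have Ψs : Surjective Ψ := by
    intro w
    have := fun j : T => phi_mask σ T j (Set.mem_iInter₂.1 hx.2 j j.2) φ hs hk (w j)
    choose y hy using this
    exact ⟨y, funext hy⟩
  have : (Measure.pi fun _ : T => Measure.pi fun _ : T => μ).IsAddHaarMeasure :=
    Measure.pi.isAddHaarMeasure _
  rw [← haar_map (Measure.pi fun _ : T => Measure.pi fun _ : ι => μ)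
    (Measure.pi fun _ : T => Measure.pi fun _ : T => μ) Ψ Ψc Ψs,
    Measure.map_apply Ψc.measurable (cok_closed hG).measurableSet]
  congr 1
  ext y
  simp only [Set.mem_ofPred_eq, Set.mem_inter_iff, Good_upd, hx, and_true, Set.mem_preimage]
  rw [cok_red G T _ φ hs (hk.trans ?_)]
  · refine iff_of_eq (congrArg _ (funext fun j => ?_))
    simp [cols, updateFinset, Ψ]
  · rw [Set.image_congr]
    intro j hj
    simp [cols, updateFinset, Finset.mem_compl.1 hj]

lemma diff_le (σ : ι → Finset ι) (T : Finset ι) :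
    |(Measure.pi fun _ : ι => Measure.pi fun _ : ι => μ).real {ω | Cok G (cols σ ω)} -
      (Measure.pi fun _ : T => Measure.pi fun _ : T => μ).real {c | Cok G c}| ≤
      1 - (Measure.pi fun _ : ι => Measure.pi fun _ : ι => μ).real (Good σ T) := by
  have h := congrArg ENNReal.toReal (good_slice μ hG σ T)
  rw [ENNReal.toReal_mul, ← measureReal_def, ← measureReal_def, ← measureReal_def] at h
  have s := measureReal_inter_add_sdiff (μ := Measure.pi fun _ : ι => Measure.pi fun _ : ι => μ)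
    (s := {ω | Cok G (cols σ ω)}) (Good_meas (p := p) σ T)
  have h1 : (Measure.pi fun _ : ι => Measure.pi fun _ : ι => μ).real
      ({ω | Cok G (cols σ ω)} \ Good σ T) ≤
      1 - (Measure.pi fun _ : ι => Measure.pi fun _ : ι => μ).real (Good σ T) := by
    rw [← probReal_compl_eq_one_sub (Good_meas _ _)]
    exact measureReal_mono fun x hx => hx.2
  have h2 : 0 ≤ (Measure.pi fun _ : ι => Measure.pi fun _ : ι => μ).real
      ({ω | Cok G (cols σ ω)} \ Good σ T) := measureReal_nonneg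
  have h3 : (Measure.pi fun _ : T => Measure.pi fun _ : T => μ).real {c | Cok G c} ≤ 1 :=
    measureReal_le_one
  have h4 : 0 ≤ (Measure.pi fun _ : T => Measure.pi fun _ : T => μ).real {c | Cok G c} :=
    measureReal_nonneg
  rw [← s, h, abs_le]
  constructor <;> nlinarith

end grp

lemma gam_pos (k : ℕ) : 0 < AA p k * (aq p (k + 1) - aq p k) := by
  have hp : (1 : ℝ) < p := by exact_mod_cast (Fact.out : p.Prime).one_lt
  refine mul_pos (AA_pos _) ?_
  have := inv_strictAnti₀ (by positivity) (pow_lt_pow_right₀ hp (lt_add_one k))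
  unfold aq; linarith

lemma good_ge (σ : ι → Finset ι) (T : Finset ι) (k : ℕ) (hk : T.card = k + 1) :
    (Measure.pi fun _ : ι => Measure.pi fun _ : ι => μ).real (II σ univ) / AA p (k + 1) -
      (k + 1) * ((AA p (Fintype.card ι) -
        (Measure.pi fun _ : ι => Measure.pi fun _ : ι => μ).real (II σ univ)) /
        (AA p k * (aq p (k + 1) - aq p k))) ≤
      (Measure.pi fun _ : ι => Measure.pi fun _ : ι => μ).real (Good σ T) := by
  have hc : Fintype.card ι - Tᶜ.card = k + 1 := by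
    have := Finset.card_le_univ T
    rw [Finset.card_compl]; omega
  have h1 := ff_anti μ σ (Finset.subset_univ Tᶜ)
  rw [ff_univ, ff, hc, ← div_le_iff₀ (AA_pos _)] at h1
  have h2 : ∀ j ∈ T, (Measure.pi fun _ : ι => Measure.pi fun _ : ι => μ).real
      (II σ Tᶜ \ Gd σ Tᶜ j) ≤ (AA p (Fintype.card ι) -
        (Measure.pi fun _ : ι => Measure.pi fun _ : ι => μ).real (II σ univ)) /
        (AA p k * (aq p (k + 1) - aq p k)) := by
    intro j hj
    have a1 := ff_step μ σ Tᶜ j (by simpa using hj)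
    have a2 := ff_anti μ σ (Finset.subset_univ (insert j Tᶜ))
    have a3 := ff_anti μ σ (Finset.empty_subset Tᶜ)
    rw [ff_univ] at a2
    rw [ff_empty] at a3
    rw [hc, Nat.add_sub_cancel] at a1
    rw [le_div_iff₀ (gam_pos k)]
    linarith
  have h3 : II (p := p) σ Tᶜ ⊆ Good σ T ∪ ⋃ j ∈ T, (II σ Tᶜ \ Gd σ Tᶜ j) := by
    intro x hx
    by_cases h : ∀ j ∈ T, x ∈ Gd σ Tᶜ j
    · exact Or.inl ⟨hx, Set.mem_iInter₂.2 h⟩
    · push Not at h
      obtain ⟨j, hj, h⟩ := h
      exact Or.inr (Set.mem_iUnion₂.2 ⟨j, hj, hx, h⟩)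
  have h4 := (measureReal_mono (μ := Measure.pi fun _ : ι => Measure.pi fun _ : ι => μ) h3).trans
    (measureReal_union_le _ _)
  have h5 := (measureReal_biUnion_finset_le
    (μ := Measure.pi fun _ : ι => Measure.pi fun _ : ι => μ) T
    fun j => II σ Tᶜ \ Gd σ Tᶜ j).trans (Finset.sum_le_card_nsmul _ _ _ h2)
  rw [hk, nsmul_eq_mul] at h5
  push_cast at h5
  linarith

lemma AA_lim : Tendsto (AA p) atTop (𝓝 (∏' i : ℕ, (1 - ((p : ℝ) ^ (i + 1))⁻¹))) ∧
    ∏' i : ℕ, (1 - ((p : ℝ) ^ (i + 1))⁻¹) ≠ 0 := by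
  have hp : (1 : ℝ) < p := by exact_mod_cast (Fact.out : p.Prime).one_lt
  have hs : Summable fun i : ℕ => ‖-((p : ℝ) ^ (i + 1))⁻¹‖ := by
    have := (summable_nat_add_iff 1).2 (summable_geometric_of_lt_one (r := (p : ℝ)⁻¹)
      (by positivity) (inv_lt_one_of_one_lt₀ hp))
    simpa using this
  simp only [sub_eq_add_neg]
  refine ⟨?_, tprod_one_add_ne_zero_of_summable (fun i => ?_) hs⟩
  · have := (multipliable_one_add_of_summable hs).hasProd.tendsto_prod_nat
    refine this.congr fun n => ?_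
    simp only [AA, aq, sub_eq_add_neg]
  · have := inv_lt_one_of_one_lt₀ (one_lt_pow₀ (n := i + 1) hp (by omega))
    linarith

theorem main (σ : (n : ℕ) → Fin n → Finset (Fin n))
    (h : Tendsto (fun n => (Measure.pi fun _ : Fin n => Measure.pi fun _ : Fin n => μ).real
      (II (σ n) univ)) atTop (𝓝 (∏' i : ℕ, (1 - ((p : ℝ) ^ (i + 1))⁻¹))))
    (G : Type) [AddCommGroup G] [Finite G] (e : ℕ) (he : Nat.card G = p ^ e) :
    Tendsto (fun n => (Measure.pi fun _ : Fin n => Measure.pi fun _ : Fin n => μ).real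
      {ω | Cok G (cols (σ n) ω)}) atTop
      (𝓝 ((∏' i : ℕ, (1 - ((p : ℝ) ^ (i + 1))⁻¹)) / Nat.card (AddAut G))) := by
  have hG : ∀ g : G, p ^ e • g = 0 := fun g => he ▸ card_nsmul_eq_zero'
  let _ : Module (ZMod (p ^ e)) G := AddCommGroup.zmodModule hG
  let _ : Module ℤ_[p] G := Module.compHom G (PadicInt.toZModPow e)
  obtain ⟨l1, l0⟩ := AA_lim (p := p)
  set c := ∏' i : ℕ, (1 - ((p : ℝ) ^ (i + 1))⁻¹)
  set a : ℝ := (Nat.card (AddAut G) : ℝ) with ha
  have a0 : 0 < a := Nat.cast_pos.2 Nat.card_pos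
  suffices Tendsto (fun n => a * (Measure.pi fun _ : Fin n => Measure.pi fun _ : Fin n => μ).real
      {ω | Cok G (cols (σ n) ω)}) atTop (𝓝 c) by
    refine (this.div_const a).congr fun n => ?_
    field_simp
  have l2 : Tendsto (fun k => AA p (k + 1)) atTop (𝓝 c) := (tendsto_add_atTop_iff_nat 1).2 l1
  have u : Tendsto (fun k => a * (1 - c / AA p (k + 1)) + Nat.card (AddSubgroup G) *
      (1 / 2 : ℝ) ^ (k + 1) + |AA p (k + 1) - c|) atTop
      (𝓝 (a * (1 - c / c) + Nat.card (AddSubgroup G) * 0 + |c - c|)) :=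
    (((tendsto_const_nhds.sub (tendsto_const_nhds.div l2 l0)).const_mul a).add
      (((tendsto_add_atTop_iff_nat 1).2 (tendsto_pow_atTop_nhds_zero_of_lt_one (by norm_num)
        (by norm_num))).const_mul _)).add (l2.sub_const c).abs
  rw [div_self l0] at u
  simp only [sub_self, mul_zero, abs_zero, add_zero] at u
  rw [Metric.tendsto_nhds]
  intro ε hε
  obtain ⟨k, hk⟩ := (u.eventually (gt_mem_nhds hε)).exists
  have v : Tendsto (fun n => a * (1 - ((Measure.pi fun _ : Fin n =>
      Measure.pi fun _ : Fin n => μ).real (II (σ n) univ) / AA p (k + 1) -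
      (k + 1) * ((AA p n - (Measure.pi fun _ : Fin n => Measure.pi fun _ : Fin n => μ).real
        (II (σ n) univ)) / (AA p k * (aq p (k + 1) - aq p k))))) + Nat.card (AddSubgroup G) *
      (1 / 2 : ℝ) ^ (k + 1) + |AA p (k + 1) - c|) atTop
      (𝓝 (a * (1 - (c / AA p (k + 1) - (k + 1) * ((c - c) / (AA p k * (aq p (k + 1) - aq p k)))))
        + Nat.card (AddSubgroup G) * (1 / 2 : ℝ) ^ (k + 1) + |AA p (k + 1) - c|)) :=
    (((tendsto_const_nhds.sub ((h.div_const _).sub (((l1.sub h).div_const _).const_mul _))).const_mul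
      a).add_const _).add_const _
  rw [sub_self, zero_div, mul_zero, sub_zero] at v
  filter_upwards [v.eventually (gt_mem_nhds hk), eventually_ge_atTop (k + 1)] with n h1 h2
  obtain ⟨T, -, hT⟩ := Finset.exists_subset_card_eq (s := (univ : Finset (Fin n))) (n := k + 1)
    (by simpa using h2)
  have b1 := diff_le μ hG (σ n) T
  have b2 := good_ge μ (σ n) T k hT
  have b3 := fw (ι := T) μ hG
  rw [Fintype.card_coe, hT] at b3
  rw [Fintype.card_fin] at b2
  rw [Real.dist_eq]
  refine lt_of_le_of_lt ?_ h1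
  have b4 := mul_le_mul_of_nonneg_left (b1.trans (sub_le_sub_left b2 1)) a0.le
  rw [← abs_of_pos a0, ← abs_mul, abs_of_pos a0, mul_sub] at b4
  exact (abs_sub_le _ _ _).trans (add_le_add ((abs_sub_le _ _ _).trans (add_le_add b4 b3)) le_rfl)

lemma cok_unit (σ : ι → Finset ι) (ω : ι → ι → ℤ_[p]) :
    Cok PUnit (cols σ ω) ↔ ω ∈ II σ univ := by
  rw [II_univ, ← Submodule.Quotient.subsingleton_iff]
  constructor
  · rintro ⟨f⟩
    exact f.toEquiv.subsingleton
  · intro h
    have := uniqueOfSubsingleton (0 : (ι → ℤ_[p]) ⧸ Submodule.span ℤ_[p] (Set.range (cols σ ω)))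
    exact ⟨AddEquiv.ofUnique⟩

end Pool.Agent.H.MP_78de02_pr
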